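import Pool.Agent.H39.Fin100

set_option autoImplicit false

/-!
# The supercongruence for `∑ binom(-1/4,k) binom(-1/2,k) / (-80)^k` (complete answer to Q1)

The proof: an identity modulo `p²` between the truncated sum at `1 - r²`, two Legendre values and the central
coefficient of a square root series; the last three are evaluated at the CM point of discriminant `-100`
(`z = 1/2 - 161√5/720`) by comparing expansions of the lift of the Frobenius modulo `p²`, and the remaining fourth
root of `± 1` is determined by the quartic character of `5`.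
-/

open Finset

namespace Pool.Agent.Results.MP_f41de7_nt.MinusEighty

/-- the binomial coefficient `a (a-1) ... (a-k+1) / k!` -/
def binom (a : ℚ) (k : ℕ) : ℚ := (∏ i ∈ range k, (a - i)) / (k.factorial : ℚ)

/-- the sum `S_p = ∑_{k<p} binom(-1/4,k) binom(-1/2,k) / (-80)^k` -/
def S (p : ℕ) : ℚ := ∑ k ∈ range p, binom (-1 / 4) k * binom (-1 / 2) k / (-80) ^ k

/-- congruence modulo `p^m` of rational numbers: `(a - b) / p^m` has denominator prime to `p` -/
def Cong (p m : ℕ) (a b : ℚ) : Prop := p.Coprime ((a - b) / (p : ℚ) ^ m).den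

open Pool.Agent.H546 Pool.Agent.H39

theorem S_eq (p : ℕ) : S p = S0 p := by
  unfold S S0
  refine sum_congr rfl fun n _ => ?_
  have e1 : binom (-1 / 4) n = gb (-(1 / 4)) n := by unfold binom gb; congr 1; norm_num
  have e2 : binom (-1 / 2) n = gb (-(1 / 2)) n := by unfold binom gb; congr 1; norm_num
  rw [e1, e2, div_eq_mul_inv, ← inv_pow]
  norm_num

theorem s3 : S 3 = 327171 / 327680 := by
  norm_num [S, binom, sum_range_succ, prod_range_succ, Nat.factorial]

theorem s13 : S 13 = 39552544124435307552645700628203108773 / 39614081257132168796771975168000000000 := by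
  norm_num [S, binom, sum_range_succ, prod_range_succ, Nat.factorial]

theorem s17 : S 17 = 33975376697609320081263016456693495669859536677776433 /
    34028236692093846346337460743176821145600000000000000 := by
  norm_num [S, binom, sum_range_succ, prod_range_succ, Nat.factorial]

/-- **The full answer to Q1: for every odd prime `p ≠ 5` the three congruences hold.** -/
theorem result (p : ℕ) (hp : p.Prime) (h2 : p ≠ 2) (h5 : p ≠ 5) :
    (∀ x y : ℤ, (p : ℤ) = x ^ 2 + y ^ 2 → Odd x → (p % 5 = 1 ∨ p % 5 = 4) →
      Cong p 2 (S p) (2 * x - p / (2 * x)) ∨ Cong p 2 (S p) (2 * ((-x : ℤ) : ℚ) - p / (2 * ((-x : ℤ) : ℚ)))) ∧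
    (∀ x y : ℤ, (p : ℤ) = x ^ 2 + y ^ 2 → Odd x → (p % 5 = 2 ∨ p % 5 = 3) →
      Cong p 2 (S p) (2 * y - p / (2 * y)) ∨ Cong p 2 (S p) (2 * ((-y : ℤ) : ℚ) - p / (2 * ((-y : ℤ) : ℚ)))) ∧
    (p % 4 = 3 → Cong p 1 (S p) 0) := by
  have hF : Fact p.Prime := ⟨hp⟩
  -- a sum of two squares is not `3` modulo `4`
  have mod4 : ∀ x y : ℤ, (p : ℤ) = x ^ 2 + y ^ 2 → Odd x → p % 4 = 1 := by
    intro x y hxy hx
    have hpo := hp.eq_two_or_odd
    obtain ⟨a, rfl⟩ := hx
    have hy : y % 2 = 0 := by
      rcases Int.emod_two_eq_zero_or_one y with h | h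
      · exact h
      · exfalso
        obtain ⟨b, rfl⟩ : ∃ b, y = 2 * b + 1 := ⟨y / 2, by omega⟩
        have : (p : ℤ) = 2 * (2 * a ^ 2 + 2 * a + 2 * b ^ 2 + 2 * b + 1) := by rw [hxy]; ring
        omega
    obtain ⟨b, rfl⟩ : ∃ b, y = 2 * b := ⟨y / 2, by omega⟩
    have : (p : ℤ) = 4 * (a ^ 2 + a + b ^ 2) + 1 := by rw [hxy]; ring
    omega
  have small : p % 4 = 1 → p ≤ 20 → p = 13 ∨ p = 17 := by
    intro h1 h
    interval_cases p <;> first | omega | (exfalso; revert hp; norm_num)
  have bd : ∀ x y : ℤ, (p : ℤ) = x ^ 2 + y ^ 2 → p ≤ 20 → (-5 < x ∧ x < 5) ∧ (-5 < y ∧ y < 5) := by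
    intro x y hxy h
    have h' : (p : ℤ) ≤ 20 := by exact_mod_cast h
    refine ⟨⟨?_, ?_⟩, ⟨?_, ?_⟩⟩ <;> nlinarith [sq_nonneg x, sq_nonneg y]
  refine ⟨fun x y hxy hx hm => ?_, fun x y hxy hx hm => ?_, fun h4 => ?_⟩
  · have h4 := mod4 x y hxy hx
    by_cases h20 : 20 < p
    · obtain ⟨η, hη, hc⟩ := (fin_one p h4 h20 hxy (Int.odd_iff.mp hx)).1 hm
      rw [← S_eq] at hc
      rcases hη with rfl | rfl
      · left; rw [one_mul] at hc; exact hc
      · right; rw [neg_one_mul] at hc; exact hc
    · exfalso
      rcases small h4 (by omega) with rfl | rfl <;> omega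
  · have h4 := mod4 x y hxy hx
    by_cases h20 : 20 < p
    · obtain ⟨η, hη, hc⟩ := (fin_one p h4 h20 hxy (Int.odd_iff.mp hx)).2 hm
      rw [← S_eq] at hc
      rcases hη with rfl | rfl
      · left; rw [one_mul] at hc; exact hc
      · right; rw [neg_one_mul] at hc; exact hc
    · obtain ⟨⟨b1, b2⟩, ⟨b3, b4⟩⟩ := bd x y hxy (by omega)
      rw [Int.odd_iff] at hx
      rcases small h4 (by omega) with rfl | rfl
      · have hy : y = 2 ∨ y = -2 := by
          push_cast at hxy
          interval_cases y <;> interval_cases x <;> first | omega | (exfalso; omega)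
        have key : Cong 13 2 (S 13) (2 * ((2 : ℤ) : ℚ) - (13 : ℕ) / (2 * ((2 : ℤ) : ℚ))) := by
          refine cop_of_eq (n := 58236586873291011568442125752681117) (d := 39614081257132168796771975168000000000) ?_ (by norm_num)
          rw [s13]; norm_num
        rcases hy with rfl | rfl
        · exact Or.inl key
        · exact Or.inr key
      · have hy : y = 4 ∨ y = -4 := by
          push_cast at hxy
          interval_cases y <;> interval_cases x <;> first | omega | (exfalso; omega)
        have key : Cong 17 2 (S 17) (2 * ((4 : ℤ) : ℚ) - (17 : ℕ) / (2 * ((4 : ℤ) : ℚ))) := by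
          refine cop_of_eq (n := -574188629302567568178095382039689718202562156824303)
            (d := 34028236692093846346337460743176821145600000000000000) ?_ (by norm_num)
          rw [s17]; norm_num
        rcases hy with rfl | rfl
        · exact Or.inl key
        · exact Or.inr key
  · by_cases h3 : p = 3
    · subst h3
      refine cop_of_eq (n := 109057) (d := 327680) ?_ (by norm_num)
      rw [s3]; norm_num
    · have h := fin_three p h4 (by have := hp.two_le; omega)
      rw [← S_eq] at h
      unfold Cong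
      rw [sub_zero, pow_one]
      exact h

end Pool.Agent.Results.MP_f41de7_nt.MinusEighty
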